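import Pool.Agent.J6H49.BC.Stm

/-!
# Extension of states of the pseudo-model
-/

set_option autoImplicit false

namespace Pool.Agent.J6H81.BC

open Pool.Agent.J6H49.BC
open Pool.Agent.TH636.BC (St Ok Agr)

/-- the conditions on the value `a` and the colours `d j`, `j ∈ F`, of a new node -/
structure Fit (m : ℕ) (s : St) (a : ℕ ⊕ ℕ) (F : Finset ℕ) (d : ℕ → ℕ) : Prop where
  h1 : ∀ j ∈ F, (s.v j).isLeft → d j = 0
  h2 : ∀ j ∈ F, d j ≤ m
  h3 : ∀ j ∈ F, (s.v j).isRight → d j = 0 → s.v j = a
  h4 : ∀ i ∈ F, ∀ j ∈ F, (s.v i).isRight → d i = 0 → d j = s.c i j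
  h5 : ∀ i ∈ F, ∀ j ∈ F, (s.v i).isRight → (s.v j).isRight → s.c i j = 0 → d i = d j
  h6 : ∀ i ∈ F, ∀ j ∈ F, d i = d j → d i = s.c i j → d i = 0

lemma right_of_not_left {α β : Type} {a : α ⊕ β} (h : ¬ a.isLeft) : a.isRight := by
  rcases a with a | a <;> simp_all

lemma not_left_of_right {α β : Type} {a : α ⊕ β} (h : a.isRight) : ¬ a.isLeft := by
  rcases a with a | a <;> simp_all

/-- one more index -/
lemma Fit.step {m : ℕ} {s : St} (hs : Ok m s) {x : ℕ} (hx : x < m) {a : ℕ ⊕ ℕ} {F : Finset ℕ}
    {d : ℕ → ℕ} (hF : ∀ j ∈ F, j < m ∧ j ≠ x) (h : Fit m s a F d) {j₀ : ℕ} (hj : j₀ < m)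
    (hjx : j₀ ≠ x) (hjF : j₀ ∉ F) :
    ∃ e : ℕ, Fit m s a (insert j₀ F) (Function.update d j₀ e) := by
  classical
  have hne : ∀ i ∈ F, i ≠ j₀ := fun i hi he => hjF (he ▸ hi)
  have hu : ∀ e : ℕ, ∀ i ∈ F, Function.update d j₀ e i = d i := fun e i hi => by
    rw [Function.update_of_ne (hne i hi)]
  have hu' : ∀ e : ℕ, Function.update d j₀ e j₀ = e := fun e => by simp
  by_cases hl : (s.v j₀).isLeft
  · -- a number
    refine ⟨0, ?_, ?_, ?_, ?_, ?_, ?_⟩
    · intro j hj' h0
      rw [Finset.mem_insert] at hj'
      rcases hj' with rfl | hj'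
      · exact hu' 0
      · rw [hu 0 j hj']
        exact h.h1 j hj' h0
    · intro j hj'
      rw [Finset.mem_insert] at hj'
      rcases hj' with rfl | hj'
      · rw [hu' 0]
        omega
      · rw [hu 0 j hj']
        exact h.h2 j hj'
    · intro j hj' h0
      rw [Finset.mem_insert] at hj'
      rcases hj' with rfl | hj'
      · exact absurd hl (not_left_of_right h0)
      · rw [hu 0 j hj']
        exact h.h3 j hj' h0
    · intro i hi j hj' h0 h00
      rw [Finset.mem_insert] at hi
      rcases hi with rfl | hi
      · exact absurd hl (not_left_of_right h0)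
      · rw [Finset.mem_insert] at hj'
        rcases hj' with rfl | hj'
        · rw [hu' 0, hs.norm i (hF i hi).1 j hj (Or.inr hl)]
        · rw [hu 0 j hj']
          rw [hu 0 i hi] at h00
          exact h.h4 i hi j hj' h0 h00
    · intro i hi j hj' h0 h0'
      rw [Finset.mem_insert] at hi
      rcases hi with rfl | hi
      · exact absurd hl (not_left_of_right h0)
      · rw [Finset.mem_insert] at hj'
        rcases hj' with rfl | hj'
        · exact absurd hl (not_left_of_right h0')
        · rw [hu 0 i hi, hu 0 j hj']
          exact h.h5 i hi j hj' h0 h0'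
    · intro i hi j hj' h0 h00
      rw [Finset.mem_insert] at hi
      rcases hi with rfl | hi
      · exact hu' 0
      · rw [Finset.mem_insert] at hj'
        rcases hj' with rfl | hj'
        · rw [h0, hu' 0]
        · rw [hu 0 i hi] at h0 h00 ⊢
          rw [hu 0 j hj'] at h0
          exact h.h6 i hi j hj' h0 h00
  · have hr : (s.v j₀).isRight := right_of_not_left hl
    by_cases hc : ∃ i ∈ F, (s.v i).isRight ∧ d i = 0
    · -- a copy
      obtain ⟨i₀, hi₀, hr₀, hd₀⟩ := hc
      have hi₀m := (hF i₀ hi₀).1
      refine ⟨s.c i₀ j₀, ?_, ?_, ?_, ?_, ?_, ?_⟩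
      · intro j hj' h0
        rw [Finset.mem_insert] at hj'
        rcases hj' with rfl | hj'
        · exact absurd h0 (not_left_of_right hr)
        · rw [hu _ j hj']
          exact h.h1 j hj' h0
      · intro j hj'
        rw [Finset.mem_insert] at hj'
        rcases hj' with rfl | hj'
        · rw [hu']
          exact hs.le i₀ hi₀m j hj
        · rw [hu _ j hj']
          exact h.h2 j hj'
      · intro j hj' h0 h00
        rw [Finset.mem_insert] at hj'
        rcases hj' with rfl | hj'
        · rw [hu'] at h00
          rw [← hs.val i₀ hi₀m j hj hr₀ hr h00]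
          exact h.h3 i₀ hi₀ hr₀ hd₀
        · rw [hu _ j hj'] at h00
          exact h.h3 j hj' h0 h00
      · intro i hi j hj' h0 h00
        rw [Finset.mem_insert] at hi
        rcases hi with rfl | hi
        · rw [hu'] at h00
          rw [Finset.mem_insert] at hj'
          rcases hj' with rfl | hj'
          · rw [hu', h00, hs.refl j hj]
          · rw [hu _ j hj', h.h4 i₀ hi₀ j hj' hr₀ hd₀]
            exact hs.cong i₀ hi₀m i hj j (hF j hj').1 hr₀ hr h00
        · rw [hu _ i hi] at h00
          rw [Finset.mem_insert] at hj'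
          rcases hj' with rfl | hj'
          · rw [hu']
            have e1 := h.h4 i₀ hi₀ i hi hr₀ hd₀
            rw [h00] at e1
            exact hs.cong i₀ hi₀m i (hF i hi).1 j hj hr₀ h0 e1.symm
          · rw [hu _ j hj']
            exact h.h4 i hi j hj' h0 h00
      · intro i hi j hj' h0 h0' h00
        rw [Finset.mem_insert] at hi
        rcases hi with rfl | hi
        · rw [Finset.mem_insert] at hj'
          rcases hj' with rfl | hj'
          · rfl
          · rw [hu', hu _ j hj', h.h4 i₀ hi₀ j hj' hr₀ hd₀]
            have e1 := hs.cong i hj j (hF j hj').1 i₀ hi₀m h0 h0' h00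
            rw [hs.symm i₀ hi₀m i hj, hs.symm i₀ hi₀m j (hF j hj').1, e1]
        · rw [Finset.mem_insert] at hj'
          rcases hj' with rfl | hj'
          · rw [hu', hu _ i hi, h.h4 i₀ hi₀ i hi hr₀ hd₀]
            have e1 := hs.cong i (hF i hi).1 j hj i₀ hi₀m h0 h0' h00
            rw [hs.symm i₀ hi₀m j hj, hs.symm i₀ hi₀m i (hF i hi).1, e1]
          · rw [hu _ i hi, hu _ j hj']
            exact h.h5 i hi j hj' h0 h0' h00
      · intro i hi j hj' h0 h00
        rw [Finset.mem_insert] at hi
        rcases hi with rfl | hi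
        · rw [Finset.mem_insert] at hj'
          rcases hj' with rfl | hj'
          · rw [h00, hs.refl j hj]
          · rw [hu'] at h0 h00 ⊢
            rw [hu _ j hj', h.h4 i₀ hi₀ j hj' hr₀ hd₀] at h0
            have e1 := hs.tri i₀ hi₀m i hj j (hF j hj').1 h00 (h00.symm.trans h0)
            exact e1
        · rw [Finset.mem_insert] at hj'
          rcases hj' with rfl | hj'
          · rw [hu', hu _ i hi, h.h4 i₀ hi₀ i hi hr₀ hd₀] at h0
            rw [hu _ i hi, h.h4 i₀ hi₀ i hi hr₀ hd₀] at h00 ⊢
            exact hs.tri i₀ hi₀m i (hF i hi).1 j hj h00 (h00.symm.trans h0)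
          · rw [hu _ i hi] at h0 h00 ⊢
            rw [hu _ j hj'] at h0
            exact h.h6 i hi j hj' h0 h00
    · push Not at hc
      by_cases hc' : ∃ i ∈ F, (s.v i).isRight ∧ s.c i j₀ = 0
      · -- equal to an old node
        obtain ⟨i₀, hi₀, hr₀, hd₀⟩ := hc'
        have hi₀m := (hF i₀ hi₀).1
        have hdi := hc i₀ hi₀ hr₀
        refine ⟨d i₀, ?_, ?_, ?_, ?_, ?_, ?_⟩
        · intro j hj' h0
          rw [Finset.mem_insert] at hj'
          rcases hj' with rfl | hj'
          · exact absurd h0 (not_left_of_right hr)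
          · rw [hu _ j hj']
            exact h.h1 j hj' h0
        · intro j hj'
          rw [Finset.mem_insert] at hj'
          rcases hj' with rfl | hj'
          · rw [hu']
            exact h.h2 i₀ hi₀
          · rw [hu _ j hj']
            exact h.h2 j hj'
        · intro j hj' h0 h00
          rw [Finset.mem_insert] at hj'
          rcases hj' with rfl | hj'
          · rw [hu'] at h00
            exact absurd h00 hdi
          · rw [hu _ j hj'] at h00
            exact absurd h00 (hc j hj' h0)
        · intro i hi j hj' h0 h00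
          rw [Finset.mem_insert] at hi
          rcases hi with rfl | hi
          · rw [hu'] at h00
            exact absurd h00 hdi
          · rw [hu _ i hi] at h00
            exact absurd h00 (hc i hi h0)
        · intro i hi j hj' h0 h0' h00
          rw [Finset.mem_insert] at hi
          rcases hi with rfl | hi
          · rw [Finset.mem_insert] at hj'
            rcases hj' with rfl | hj'
            · rfl
            · rw [hu', hu _ j hj']
              refine h.h5 i₀ hi₀ j hj' hr₀ h0' ?_
              rw [hs.cong i₀ hi₀m i hj j (hF j hj').1 hr₀ h0 hd₀, h00]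
          · rw [Finset.mem_insert] at hj'
            rcases hj' with rfl | hj'
            · rw [hu', hu _ i hi]
              refine (h.h5 i₀ hi₀ i hi hr₀ h0 ?_).symm
              rw [hs.cong i₀ hi₀m j hj i (hF i hi).1 hr₀ h0' hd₀, hs.symm j hj i (hF i hi).1, h00]
            · rw [hu _ i hi, hu _ j hj']
              exact h.h5 i hi j hj' h0 h0' h00
        · intro i hi j hj' h0 h00
          rw [Finset.mem_insert] at hi
          rcases hi with rfl | hi
          · rw [Finset.mem_insert] at hj'
            rcases hj' with rfl | hj'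
            · rw [h00, hs.refl j hj]
            · rw [hu'] at h0 h00 ⊢
              rw [hu _ j hj'] at h0
              refine h.h6 i₀ hi₀ j hj' h0 ?_
              rw [h00, hs.cong i₀ hi₀m i hj j (hF j hj').1 hr₀ hr hd₀]
          · rw [Finset.mem_insert] at hj'
            rcases hj' with rfl | hj'
            · rw [hu', hu _ i hi] at h0
              rw [hu _ i hi] at h00 ⊢
              rw [h0]
              refine h.h6 i₀ hi₀ i hi h0.symm ?_
              rw [← h0, h00, hs.symm i (hF i hi).1 j hj,
                hs.cong i₀ hi₀m j hj i (hF i hi).1 hr₀ hr hd₀]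
            · rw [hu _ i hi] at h0 h00 ⊢
              rw [hu _ j hj'] at h0
              exact h.h6 i hi j hj' h0 h00
      · -- a new colour
        push Not at hc'
        have hcard : (F.image d).card < (Finset.Icc 1 m).card := by
          have e1 : F.card ≤ m - 2 := by
            have e2 : F ⊆ ((Finset.range m).erase x).erase j₀ := by
              intro i hi
              rw [Finset.mem_erase, Finset.mem_erase, Finset.mem_range]
              exact ⟨hne i hi, (hF i hi).2, (hF i hi).1⟩
            have e3 := Finset.card_le_card e2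
            rw [Finset.card_erase_of_mem, Finset.card_erase_of_mem, Finset.card_range] at e3
            · omega
            · exact Finset.mem_range.2 hx
            · rw [Finset.mem_erase, Finset.mem_range]
              exact ⟨hjx, hj⟩
          have e4 := Finset.card_image_le (s := F) (f := d)
          rw [Nat.card_Icc]
          omega
        obtain ⟨e, he, he'⟩ : ∃ e ∈ Finset.Icc 1 m, e ∉ F.image d := by
          by_contra hcon
          push Not at hcon
          exact absurd (Finset.card_le_card hcon) (not_le.2 hcard)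
        rw [Finset.mem_Icc] at he
        have hed : ∀ i ∈ F, d i ≠ e := fun i hi h0 => he' (Finset.mem_image.2 ⟨i, hi, h0⟩)
        refine ⟨e, ?_, ?_, ?_, ?_, ?_, ?_⟩
        · intro j hj' h0
          rw [Finset.mem_insert] at hj'
          rcases hj' with rfl | hj'
          · exact absurd h0 (not_left_of_right hr)
          · rw [hu _ j hj']
            exact h.h1 j hj' h0
        · intro j hj'
          rw [Finset.mem_insert] at hj'
          rcases hj' with rfl | hj'
          · rw [hu']
            exact he.2
          · rw [hu _ j hj']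
            exact h.h2 j hj'
        · intro j hj' h0 h00
          rw [Finset.mem_insert] at hj'
          rcases hj' with rfl | hj'
          · rw [hu'] at h00
            omega
          · rw [hu _ j hj'] at h00
            exact absurd h00 (hc j hj' h0)
        · intro i hi j hj' h0 h00
          rw [Finset.mem_insert] at hi
          rcases hi with rfl | hi
          · rw [hu'] at h00
            omega
          · rw [hu _ i hi] at h00
            exact absurd h00 (hc i hi h0)
        · intro i hi j hj' h0 h0' h00
          rw [Finset.mem_insert] at hi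
          rcases hi with rfl | hi
          · rw [Finset.mem_insert] at hj'
            rcases hj' with rfl | hj'
            · rfl
            · rw [hs.symm i hj j (hF j hj').1] at h00
              exact absurd h00 (hc' j hj' h0')
          · rw [Finset.mem_insert] at hj'
            rcases hj' with rfl | hj'
            · exact absurd h00 (hc' i hi h0)
            · rw [hu _ i hi, hu _ j hj']
              exact h.h5 i hi j hj' h0 h0' h00
        · intro i hi j hj' h0 h00
          rw [Finset.mem_insert] at hi
          rcases hi with rfl | hi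
          · rw [Finset.mem_insert] at hj'
            rcases hj' with rfl | hj'
            · rw [h00, hs.refl j hj]
            · rw [hu', hu _ j hj'] at h0
              exact absurd h0.symm (hed j hj')
          · rw [Finset.mem_insert] at hj'
            rcases hj' with rfl | hj'
            · rw [hu', hu _ i hi] at h0
              exact absurd h0 (hed i hi)
            · rw [hu _ i hi] at h0 h00 ⊢
              rw [hu _ j hj'] at h0
              exact h.h6 i hi j hj' h0 h00

/-- all indices -/
lemma Fit.full {m : ℕ} {s : St} (hs : Ok m s) {x : ℕ} (hx : x < m) {a : ℕ ⊕ ℕ} (n : ℕ) :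
    ∀ (F : Finset ℕ) (d : ℕ → ℕ), (∀ j ∈ F, j < m ∧ j ≠ x) → Fit m s a F d →
      (((Finset.range m).erase x) \ F).card = n →
      ∃ d' : ℕ → ℕ, Fit m s a ((Finset.range m).erase x) d' ∧ ∀ j ∈ F, d' j = d j := by
  classical
  induction n with
  | zero =>
    intro F d hF h hn
    have h1 : (Finset.range m).erase x ⊆ F := by
      rw [Finset.card_eq_zero, Finset.sdiff_eq_empty_iff_subset] at hn
      exact hn
    have h2 : F = (Finset.range m).erase x := by
      refine Finset.Subset.antisymm ?_ h1
      intro j hj
      rw [Finset.mem_erase, Finset.mem_range]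
      exact ⟨(hF j hj).2, (hF j hj).1⟩
    exact ⟨d, h2 ▸ h, fun _ _ => rfl⟩
  | succ n ih =>
    intro F d hF h hn
    obtain ⟨j₀, hj₀⟩ : (((Finset.range m).erase x) \ F).Nonempty := by
      rw [← Finset.card_pos]
      omega
    rw [Finset.mem_sdiff, Finset.mem_erase, Finset.mem_range] at hj₀
    obtain ⟨e, he⟩ := h.step hs hx hF hj₀.1.2 hj₀.1.1 hj₀.2
    obtain ⟨d', h1, h2⟩ := ih (insert j₀ F) (Function.update d j₀ e) (fun j hj => by
      rcases Finset.mem_insert.1 hj with rfl | hj
      · exact ⟨hj₀.1.2, hj₀.1.1⟩
      · exact hF j hj) he (by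
      have e1 : ((Finset.range m).erase x) \ insert j₀ F
          = (((Finset.range m).erase x) \ F).erase j₀ := by
        ext i
        simp only [Finset.mem_sdiff, Finset.mem_erase, Finset.mem_insert]
        tauto
      rw [e1, Finset.card_erase_of_mem (by
        rw [Finset.mem_sdiff, Finset.mem_erase, Finset.mem_range]
        exact hj₀), hn]
      omega)
    refine ⟨d', h1, fun j hj => ?_⟩
    rw [h2 j (Finset.mem_insert_of_mem hj), Function.update_of_ne]
    rintro rfl
    exact hj₀.2 hj

/-- the state `s` with the new value `a` and the new colours `d` at `x` -/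
def put (s : St) (x : ℕ) (a : ℕ ⊕ ℕ) (d : ℕ → ℕ) : St where
  v := Function.update s.v x a
  c := fun i j => if i = x then (if j = x then 0 else d j) else if j = x then d i else s.c i j

lemma put_v_same (s : St) (x : ℕ) (a : ℕ ⊕ ℕ) (d : ℕ → ℕ) : (put s x a d).v x = a := by
  simp [put]

lemma put_v_ne (s : St) {x i : ℕ} (a : ℕ ⊕ ℕ) (d : ℕ → ℕ) (h : i ≠ x) :
    (put s x a d).v i = s.v i := by
  simp [put, Function.update_of_ne h]

lemma put_c_xx (s : St) (x : ℕ) (a : ℕ ⊕ ℕ) (d : ℕ → ℕ) : (put s x a d).c x x = 0 := by
  simp [put]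

lemma put_c_x (s : St) {x j : ℕ} (a : ℕ ⊕ ℕ) (d : ℕ → ℕ) (h : j ≠ x) :
    (put s x a d).c x j = d j := by
  simp [put, h]

lemma put_c_x' (s : St) {x j : ℕ} (a : ℕ ⊕ ℕ) (d : ℕ → ℕ) (h : j ≠ x) :
    (put s x a d).c j x = d j := by
  simp [put, h]

lemma put_c_ne (s : St) {x i j : ℕ} (a : ℕ ⊕ ℕ) (d : ℕ → ℕ) (hi : i ≠ x) (hj : j ≠ x) :
    (put s x a d).c i j = s.c i j := by
  simp [put, hi, hj]

lemma put_agr (m : ℕ) (s : St) (x : ℕ) (a : ℕ ⊕ ℕ) (d : ℕ → ℕ) : Agr m x s (put s x a d) :=
  ⟨fun _ _ h => (put_v_ne s a d h).symm, fun _ _ _ _ hi hj => (put_c_ne s a d hi hj).symm⟩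

lemma put_ok {m : ℕ} {s : St} (hs : Ok m s) {x : ℕ} {a : ℕ ⊕ ℕ} {d : ℕ → ℕ}
    (h1 : ∀ j < m, j ≠ x → a.isLeft ∨ (s.v j).isLeft → d j = 0)
    (h2 : ∀ j < m, j ≠ x → d j ≤ m)
    (h3 : ∀ j < m, j ≠ x → a.isRight → (s.v j).isRight → d j = 0 → s.v j = a)
    (h4 : ∀ i < m, ∀ j < m, i ≠ x → j ≠ x → a.isRight → (s.v i).isRight → d i = 0 →
      d j = s.c i j)
    (h5 : ∀ i < m, ∀ j < m, i ≠ x → j ≠ x → (s.v i).isRight → (s.v j).isRight → s.c i j = 0 →
      d i = d j)
    (h6 : ∀ i < m, ∀ j < m, i ≠ x → j ≠ x → d i = d j → d i = s.c i j → d i = 0) :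
    Ok m (put s x a d) := by
  refine ⟨?_, ?_, ?_, ?_, ?_, ?_, ?_⟩
  · intro i hi j hj h
    by_cases hix : i = x
    · subst hix
      by_cases hjx : j = i
      · rw [hjx, put_c_xx]
      · rw [put_v_same, put_v_ne s a d hjx] at h
        rw [put_c_x s a d hjx]
        exact h1 j hj hjx h
    · by_cases hjx : j = x
      · subst hjx
        rw [put_v_same, put_v_ne s a d hix] at h
        rw [put_c_x' s a d hix]
        exact h1 i hi hix h.symm
      · rw [put_v_ne s a d hjx, put_v_ne s a d hix] at h
        rw [put_c_ne s a d hix hjx]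
        exact hs.norm i hi j hj h
  · intro i hi
    by_cases hix : i = x
    · rw [hix, put_c_xx]
    · rw [put_c_ne s a d hix hix, hs.refl i hi]
  · intro i hi j hj
    by_cases hix : i = x
    · subst hix
      by_cases hjx : j = i
      · rw [hjx]
      · rw [put_c_x s a d hjx, put_c_x' s a d hjx]
    · by_cases hjx : j = x
      · subst hjx
        rw [put_c_x s a d hix, put_c_x' s a d hix]
      · rw [put_c_ne s a d hix hjx, put_c_ne s a d hjx hix, hs.symm i hi j hj]
  · intro i hi j hj
    by_cases hix : i = x
    · subst hix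
      by_cases hjx : j = i
      · rw [hjx, put_c_xx]
        omega
      · rw [put_c_x s a d hjx]
        exact h2 j hj hjx
    · by_cases hjx : j = x
      · subst hjx
        rw [put_c_x' s a d hix]
        exact h2 i hi hix
      · rw [put_c_ne s a d hix hjx]
        exact hs.le i hi j hj
  · intro i hi j hj hi' hj' h
    by_cases hix : i = x
    · subst hix
      by_cases hjx : j = i
      · rw [hjx]
      · rw [put_c_x s a d hjx] at h
        rw [put_v_ne s a d hjx] at hj' ⊢
        rw [put_v_same] at hi' ⊢
        exact (h3 j hj hjx hi' hj' h).symm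
    · by_cases hjx : j = x
      · subst hjx
        rw [put_c_x' s a d hix] at h
        rw [put_v_ne s a d hix] at hi' ⊢
        rw [put_v_same] at hj' ⊢
        exact h3 i hi hix hj' hi' h
      · rw [put_c_ne s a d hix hjx] at h
        rw [put_v_ne s a d hix] at hi' ⊢
        rw [put_v_ne s a d hjx] at hj' ⊢
        exact hs.val i hi j hj hi' hj' h
  · intro i hi j hj k hk hi' hj' h
    by_cases hix : i = x
    · subst hix
      by_cases hjx : j = i
      · rw [hjx]
      · rw [put_c_x s a d hjx] at h
        rw [put_v_ne s a d hjx] at hj'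
        rw [put_v_same] at hi'
        by_cases hkx : k = i
        · subst hkx
          rw [put_c_xx, put_c_x' s a d hjx, h]
        · rw [put_c_x s a d hkx, put_c_ne s a d hjx hkx]
          exact h4 j hj k hk hjx hkx hi' hj' h
    · by_cases hjx : j = x
      · subst hjx
        rw [put_c_x' s a d hix] at h
        rw [put_v_ne s a d hix] at hi'
        rw [put_v_same] at hj'
        by_cases hkx : k = j
        · subst hkx
          rw [put_c_xx, put_c_x' s a d hix, h]
        · rw [put_c_x s a d hkx, put_c_ne s a d hix hkx]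
          exact (h4 i hi k hk hix hkx hj' hi' h).symm
      · rw [put_c_ne s a d hix hjx] at h
        rw [put_v_ne s a d hix] at hi'
        rw [put_v_ne s a d hjx] at hj'
        by_cases hkx : k = x
        · subst hkx
          rw [put_c_x' s a d hix, put_c_x' s a d hjx]
          exact h5 i hi j hj hix hjx hi' hj' h
        · rw [put_c_ne s a d hix hkx, put_c_ne s a d hjx hkx]
          exact hs.cong i hi j hj k hk hi' hj' h
  · intro i hi j hj k hk e1 e2
    by_cases hix : i = x
    · subst hix
      by_cases hjx : j = i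
      · rw [hjx, put_c_xx]
      · by_cases hkx : k = i
        · subst hkx
          rw [put_c_xx] at e2
          rw [e1, e2]
        · rw [put_c_x s a d hjx, put_c_ne s a d hjx hkx] at e1
          rw [put_c_x s a d hkx, put_c_ne s a d hjx hkx] at e2
          rw [put_c_x s a d hjx]
          exact h6 j hj k hk hjx hkx (e1.trans e2) e1
    · by_cases hjx : j = x
      · subst hjx
        by_cases hkx : k = j
        · subst hkx
          rw [put_c_xx] at e1
          exact e1
        · rw [put_c_x' s a d hix, put_c_x s a d hkx] at e1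
          rw [put_c_x s a d hkx, put_c_ne s a d hix hkx] at e2
          rw [put_c_x' s a d hix]
          exact h6 i hi k hk hix hkx e1 (e1.trans e2)
      · by_cases hkx : k = x
        · subst hkx
          rw [put_c_ne s a d hix hjx, put_c_x' s a d hjx] at e1
          rw [put_c_x' s a d hjx, put_c_x' s a d hix] at e2
          rw [put_c_ne s a d hix hjx, e1, e2]
          exact h6 i hi j hj hix hjx e2.symm (e1.trans e2).symm
        · rw [put_c_ne s a d hix hjx, put_c_ne s a d hjx hkx] at e1
          rw [put_c_ne s a d hix hkx, put_c_ne s a d hjx hkx] at e2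
          rw [put_c_ne s a d hix hjx]
          exact hs.tri i hi j hj k hk e1 e2

/-- Extension of states. -/
theorem ext : ExtT := by
  classical
  intro m s x F a d hs hx hF h1 h2 h3 h4 h5 h6
  by_cases ha : a.isLeft
  · refine ⟨put s x a (fun _ => 0), ?_, put_agr m s x a _, put_v_same s x a _, ?_⟩
    · have ha' : ¬ a.isRight := fun h => not_left_of_right h ha
      refine put_ok hs (fun _ _ _ _ => rfl) (fun _ _ _ => by omega)
        (fun _ _ _ h => absurd h ha') (fun _ _ _ _ _ _ h => absurd h ha')
        (fun _ _ _ _ _ _ _ _ _ => rfl) (fun _ _ _ _ _ _ _ _ => rfl)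
    · intro j hj
      rw [put_c_x s a _ (hF j hj).2, h1 j hj (Or.inl ha)]
  · have ha' : a.isRight := right_of_not_left ha
    have hmem : ∀ j, j ∈ (Finset.range m).filter F ↔ F j := by
      intro j
      rw [Finset.mem_filter, Finset.mem_range]
      exact ⟨fun h => h.2, fun h => ⟨(hF j h).1, h⟩⟩
    have hfit : Fit m s a ((Finset.range m).filter F) d := by
      refine ⟨?_, ?_, ?_, ?_, ?_, ?_⟩
      · intro j hj h
        exact h1 j ((hmem j).1 hj) (Or.inr h)
      · intro j hj
        exact h2 j ((hmem j).1 hj)
      · intro j hj h h0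
        exact h3 j ((hmem j).1 hj) ha' h h0
      · intro i hi j hj h h0
        exact h4 i j ((hmem i).1 hi) ((hmem j).1 hj) ha' h h0
      · intro i hi j hj h h' h0
        exact h5 i j ((hmem i).1 hi) ((hmem j).1 hj) h h' h0
      · intro i hi j hj h h0
        exact h6 i j ((hmem i).1 hi) ((hmem j).1 hj) h h0
    obtain ⟨d', h7, h8⟩ := Fit.full hs hx _ _ d (fun j hj => hF j ((hmem j).1 hj)) hfit rfl
    have hm : ∀ j, j < m → j ≠ x → j ∈ (Finset.range m).erase x := fun j hj hjx =>
      Finset.mem_erase.2 ⟨hjx, Finset.mem_range.2 hj⟩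
    refine ⟨put s x a d', ?_, put_agr m s x a _, put_v_same s x a _, ?_⟩
    · refine put_ok hs ?_ ?_ ?_ ?_ ?_ ?_
      · intro j hj hjx h
        rcases h with h | h
        · exact absurd h ha
        · exact h7.h1 j (hm j hj hjx) h
      · intro j hj hjx
        exact h7.h2 j (hm j hj hjx)
      · intro j hj hjx _ h h0
        exact h7.h3 j (hm j hj hjx) h h0
      · intro i hi j hj hix hjx _ h h0
        exact h7.h4 i (hm i hi hix) j (hm j hj hjx) h h0
      · intro i hi j hj hix hjx h h' h0
        exact h7.h5 i (hm i hi hix) j (hm j hj hjx) h h' h0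
      · intro i hi j hj hix hjx h h0
        exact h7.h6 i (hm i hi hix) j (hm j hj hjx) h h0
    · intro j hj
      rw [put_c_x s a _ (hF j hj).2, h8 j ((hmem j).2 hj)]

end Pool.Agent.J6H81.BC
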