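import Pool.Agent.J6H81.BC.Ext

/-!
# Soundness of the calculus in the pseudo-model
-/

set_option autoImplicit false

namespace Pool.Agent.J6H81.BC

open Pool.Agent.J6H49.BC
open Pool.Agent.TH672 (Fm LogK ReplK Sw)
open Pool.Agent.TH636.BC (Fml Step IsProof St Ok Agr Eqs AddS MulS SuccS Vlt)

/-! ### The unfolding of pseudo-truth -/

section tl

variable (m : ℕ) (s : St)

lemma tru_bot : Tru m .bot s ↔ False := Iff.rfl
lemma tru_eq (x y : ℕ) : Tru m (.eq x y) s ↔ Eqs s x y := Iff.rfl
lemma tru_zero (x : ℕ) : Tru m (.zero x) s ↔ s.v x = .inl 0 := Iff.rfl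
lemma tru_succ (x y : ℕ) : Tru m (.succ x y) s ↔ SuccS s x y := Iff.rfl
lemma tru_add (x y z : ℕ) : Tru m (.add x y z) s ↔ AddS s x y z := Iff.rfl
lemma tru_mul (x y z : ℕ) : Tru m (.mul x y z) s ↔ MulS s x y z := Iff.rfl
lemma tru_op (i a b c d : ℕ) : Tru m (.op i a b c d) s ↔ OpP s i a b c := Iff.rfl
lemma tru_imp (φ ψ : Fml) : Tru m (.imp φ ψ) s ↔ (Tru m φ s → Tru m ψ s) := Iff.rfl
lemma tru_all (x : ℕ) (φ : Fml) :
    Tru m (.all x φ) s ↔ ∀ t, Ok m t → Agr m x s t → Tru m φ t := Iff.rfl
lemma tru_neg (φ : Fml) : Tru m (.neg φ) s ↔ ¬ Tru m φ s := Iff.rfl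

end tl

/-! ### Locality -/

/-- the states agree on the set `G` -/
def On (m : ℕ) (G : ℕ → Prop) (s t : St) : Prop :=
  (∀ i < m, G i → s.v i = t.v i) ∧ ∀ i < m, ∀ j < m, G i → G j → s.c i j = t.c i j

lemma On.symm {m : ℕ} {G : ℕ → Prop} {s t : St} (h : On m G s t) : On m G t s :=
  ⟨fun i hi h' => (h.1 i hi h').symm, fun i hi j hj h' h'' => (h.2 i hi j hj h' h'').symm⟩

lemma eqs_on {m : ℕ} {G : ℕ → Prop} {s t : St} (h : On m G s t) {x y : ℕ} (hx : x < m)
    (hy : y < m) (gx : G x) (gy : G y) : Eqs s x y ↔ Eqs t x y := by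
  unfold Eqs
  rw [h.1 x hx gx, h.1 y hy gy, h.2 x hx y hy gx gy]

/-- carrying an agreement over a change of one variable -/
lemma On.lift {m : ℕ} {G : ℕ → Prop} {s t : St} (h : On m G s t) (hs : Ok m s) {x : ℕ}
    (hx : x < m) {t' : St} (ht' : Ok m t') (ha : Agr m x t t') :
    ∃ s', Ok m s' ∧ Agr m x s s' ∧ On m (fun i => G i ∨ i = x) s' t' := by
  have ev : ∀ j < m, j ≠ x → G j → s.v j = t'.v j := fun j hj hjx gj =>
    (h.1 j hj gj).trans (ha.1 j hj hjx)
  have ec : ∀ i < m, ∀ j < m, i ≠ x → j ≠ x → G i → G j → s.c i j = t'.c i j :=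
    fun i hi j hj hix hjx gi gj => (h.2 i hi j hj gi gj).trans (ha.2 i hi j hj hix hjx)
  have hex : ∃ s', Ok m s' ∧ Agr m x s s' ∧ s'.v x = t'.v x ∧
      ∀ j, (G j ∧ j < m ∧ j ≠ x) → s'.c x j = t'.c x j := by
    refine ext m s x (fun j => G j ∧ j < m ∧ j ≠ x) (t'.v x)
      (fun j => t'.c x j) hs hx (fun j hj => hj.2) ?_ ?_ ?_ ?_ ?_ ?_
    · rintro j ⟨gj, hj, hjx⟩ h0
      rw [ev j hj hjx gj] at h0
      exact ht'.norm x hx j hj h0
    · rintro j ⟨gj, hj, hjx⟩
      exact ht'.le x hx j hj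
    · rintro j ⟨gj, hj, hjx⟩ h0 h0' h00
      rw [ev j hj hjx gj] at h0' ⊢
      exact (ht'.val x hx j hj h0 h0' h00).symm
    · rintro i j ⟨gi, hi, hix⟩ ⟨gj, hj, hjx⟩ h0 h0' h00
      rw [ev i hi hix gi] at h0'
      rw [ec i hi j hj hix hjx gi gj]
      exact ht'.cong x hx i hi j hj h0 h0' h00
    · rintro i j ⟨gi, hi, hix⟩ ⟨gj, hj, hjx⟩ h0 h0' h00
      rw [ev i hi hix gi] at h0
      rw [ev j hj hjx gj] at h0'
      rw [ec i hi j hj hix hjx gi gj] at h00
      rw [ht'.symm x hx i hi, ht'.symm x hx j hj]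
      exact ht'.cong i hi j hj x hx h0 h0' h00
    · rintro i j ⟨gi, hi, hix⟩ ⟨gj, hj, hjx⟩ h0 h00
      rw [ec i hi j hj hix hjx gi gj] at h00
      exact ht'.tri x hx i hi j hj h00 (h00.symm.trans h0)
  obtain ⟨s', h1, h2, h3, h4⟩ := hex
  · refine ⟨s', h1, h2, ?_, ?_⟩
    · intro i hi hg
      by_cases hix : i = x
      · rw [hix]
        exact h3
      · rcases hg with hg | hg
        · rw [← h2.1 i hi hix]
          exact ev i hi hix hg
        · exact absurd hg hix
    · intro i hi j hj hgi hgj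
      by_cases hix : i = x
      · subst hix
        by_cases hjx : j = i
        · subst hjx
          rw [h1.refl j hj, ht'.refl j hj]
        · rcases hgj with hgj | hgj
          · exact h4 j ⟨hgj, hj, hjx⟩
          · exact absurd hgj hjx
      · by_cases hjx : j = x
        · subst hjx
          rcases hgi with hgi | hgi
          · rw [h1.symm i hi j hj, ht'.symm i hi j hj]
            exact h4 i ⟨hgi, hi, hix⟩
          · exact absurd hgi hix
        · rcases hgi with hgi | hgi
          · rcases hgj with hgj | hgj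
            · rw [← h2.2 i hi j hj hix hjx]
              exact ec i hi j hj hix hjx hgi hgj
            · exact absurd hgj hjx
          · exact absurd hgi hix

theorem tru_on {m : ℕ} : ∀ {φ : Fml} {G : ℕ → Prop} {s t : St}, Vlt m φ →
    (∀ x, φ.Free x → G x) → Ok m s → Ok m t → On m G s t → (Tru m φ s ↔ Tru m φ t) := by
  intro φ
  induction φ with
  | bot => intro G s t _ _ _ _ _; rfl
  | eq x y =>
    intro G s t hv hg _ _ h
    exact eqs_on h hv.1 hv.2 (hg x (Or.inl rfl)) (hg y (Or.inr rfl))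
  | zero x =>
    intro G s t hv hg _ _ h
    rw [tru_zero, tru_zero, h.1 x hv (hg x rfl)]
  | succ x y =>
    intro G s t hv hg _ _ h
    have gx := hg x (Or.inl rfl)
    have gy := hg y (Or.inr rfl)
    rw [tru_succ, tru_succ]
    unfold SuccS
    rw [h.1 x hv.1 gx, h.1 y hv.2 gy]
    split
    · rfl
    · exact eqs_on h hv.1 hv.2 gx gy
  | add x y z =>
    intro G s t hv hg _ _ h
    have gx := hg x (Or.inl rfl)
    have gy := hg y (Or.inr (Or.inl rfl))
    have gz := hg z (Or.inr (Or.inr rfl))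
    rw [tru_add, tru_add]
    unfold AddS
    rw [h.1 x hv.1 gx, h.1 y hv.2.1 gy, h.1 z hv.2.2 gz]
    split
    · rfl
    · exact eqs_on h hv.1 hv.2.2 gx gz
    · exact eqs_on h hv.2.1 hv.2.2 gy gz
  | mul x y z =>
    intro G s t hv hg _ _ h
    have gx := hg x (Or.inl rfl)
    have gy := hg y (Or.inr (Or.inl rfl))
    have gz := hg z (Or.inr (Or.inr rfl))
    rw [tru_mul, tru_mul]
    unfold MulS
    rw [h.1 x hv.1 gx, h.1 y hv.2.1 gy, h.1 z hv.2.2 gz]
    split
    · rfl
    · split_ifs
      · rfl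
      · exact eqs_on h hv.1 hv.2.2 gx gz
    · exact eqs_on h hv.2.1 hv.2.2 gy gz
    · exact eqs_on h hv.1 hv.2.2 gx gz
  | op i a b c d =>
    intro G s t hv hg _ _ h
    have ga := hg a (Or.inl rfl)
    have gb := hg b (Or.inr (Or.inl rfl))
    have gc := hg c (Or.inr (Or.inr (Or.inl rfl)))
    rw [tru_op, tru_op]
    unfold OpP
    rw [h.1 a hv.1 ga, h.1 b hv.2.1 gb, h.1 c hv.2.2.1 gc, h.2 a hv.1 b hv.2.1 ga gb]
  | imp φ ψ ih ih' =>
    intro G s t hv hg hs ht h
    rw [tru_imp, tru_imp, ih hv.1 (fun x hx => hg x (Or.inl hx)) hs ht h,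
      ih' hv.2 (fun x hx => hg x (Or.inr hx)) hs ht h]
  | all u φ ih =>
    have key : ∀ {G : ℕ → Prop} {s t : St}, Vlt m (.all u φ) → (∀ x, (Fm.all u φ).Free x → G x) →
        Ok m s → Ok m t → On m G s t → Tru m (.all u φ) s → Tru m (.all u φ) t := by
      intro G s t hv hg hs ht h h1 t' ht' ha
      obtain ⟨s', h2, h3, h4⟩ := h.lift hs hv.1 ht' ha
      refine (ih hv.2 (fun x hx => ?_) h2 ht' h4).1 (h1 s' h2 h3)
      by_cases hxu : x = u
      · exact Or.inr hxu
      · exact Or.inl (hg x ⟨hxu, hx⟩)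
    intro G s t hv hg hs ht h
    exact ⟨key hv hg hs ht h, key hv hg ht hs h.symm⟩

/-! ### Substitution -/

/-- the state pulled back along a map of the indices -/
def pull (r : ℕ → ℕ) (s : St) : St where
  v := fun i => s.v (r i)
  c := fun i j => s.c (r i) (r j)

lemma pull_ok {m : ℕ} {r : ℕ → ℕ} (hr : ∀ i < m, r i < m) {s : St} (hs : Ok m s) :
    Ok m (pull r s) :=
  ⟨fun i hi j hj h => hs.norm _ (hr i hi) _ (hr j hj) h,
   fun i hi => hs.refl _ (hr i hi),
   fun i hi j hj => hs.symm _ (hr i hi) _ (hr j hj),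
   fun i hi j hj => hs.le _ (hr i hi) _ (hr j hj),
   fun i hi j hj h h' h'' => hs.val _ (hr i hi) _ (hr j hj) h h' h'',
   fun i hi j hj k hk h h' h'' => hs.cong _ (hr i hi) _ (hr j hj) _ (hr k hk) h h' h'',
   fun i hi j hj k hk h h' => hs.tri _ (hr i hi) _ (hr j hj) _ (hr k hk) h h'⟩

/-- `x` becomes a copy of `y` -/
def cp (s : St) (x y : ℕ) : St := pull (Pool.Agent.TH672.Form.ren x y) s

lemma ren_same (x y : ℕ) : Pool.Agent.TH672.Form.ren x y x = y := by
  simp [Pool.Agent.TH672.Form.ren]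

lemma ren_ne {x i : ℕ} (y : ℕ) (h : i ≠ x) : Pool.Agent.TH672.Form.ren x y i = i := by
  simp [Pool.Agent.TH672.Form.ren, h]

lemma cp_ok {m : ℕ} {s : St} (hs : Ok m s) (x : ℕ) {y : ℕ} (hy : y < m) : Ok m (cp s x y) := by
  refine pull_ok (fun i hi => ?_) hs
  unfold Pool.Agent.TH672.Form.ren
  split_ifs <;> omega

lemma cp_v_same (s : St) (x y : ℕ) : (cp s x y).v x = s.v y := by
  change s.v _ = _
  rw [ren_same]

lemma cp_v_ne (s : St) {x i : ℕ} (y : ℕ) (h : i ≠ x) : (cp s x y).v i = s.v i := by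
  change s.v _ = _
  rw [ren_ne y h]

lemma cp_c_x (s : St) {x j : ℕ} (y : ℕ) (h : j ≠ x) : (cp s x y).c x j = s.c y j := by
  change s.c _ _ = _
  rw [ren_same, ren_ne y h]

lemma cp_c_ne (s : St) {x i j : ℕ} (y : ℕ) (hi : i ≠ x) (hj : j ≠ x) :
    (cp s x y).c i j = s.c i j := by
  change s.c _ _ = _
  rw [ren_ne y hi, ren_ne y hj]

lemma cp_agr (m : ℕ) (s : St) (x y : ℕ) : Agr m x s (cp s x y) :=
  ⟨fun _ _ h => (cp_v_ne s y h).symm, fun _ _ _ _ hi hj => (cp_c_ne s y hi hj).symm⟩

lemma cp_on (m : ℕ) (s : St) (x y : ℕ) {G : ℕ → Prop} (hG : ¬ G x) : On m G s (cp s x y) :=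
  have h0 : ∀ i, G i → i ≠ x := fun _ hi e => hG (e ▸ hi)
  ⟨fun _ _ h => (cp_v_ne s y (h0 _ h)).symm,
   fun _ _ _ _ hi hj => (cp_c_ne s y (h0 _ hi) (h0 _ hj)).symm⟩

lemma cp_self (s : St) (x : ℕ) : cp s x x = s := by
  have h : Pool.Agent.TH672.Form.ren x x = id := by
    funext u
    unfold Pool.Agent.TH672.Form.ren
    split_ifs with h
    · exact h.symm
    · rfl
  unfold cp
  rw [h]
  rfl

lemma subst_self (x : ℕ) : ∀ φ : Fml, φ.subst x x = φ := by
  have h : ∀ u, Pool.Agent.TH672.Form.ren x x u = u := by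
    intro u
    unfold Pool.Agent.TH672.Form.ren
    split_ifs with h
    · exact h.symm
    · rfl
  intro φ
  induction φ with
  | bot => rfl
  | eq u v => simp only [Fm.subst, h]
  | zero u => simp only [Fm.subst, h]
  | succ u v => simp only [Fm.subst, h]
  | add u v w => simp only [Fm.subst, h]
  | mul u v w => simp only [Fm.subst, h]
  | op i a b c d => simp only [Fm.subst, h]
  | imp φ ψ ih ih' => simp only [Fm.subst, ih, ih']
  | all u φ ih =>
    simp only [Fm.subst, ih]
    split_ifs <;> rfl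

theorem tru_subst {m : ℕ} {x y : ℕ} (hx : x < m) (hy : y < m) (hxy : x ≠ y) :
    ∀ {φ : Fml} {s : St}, Vlt m φ → φ.FreeFor y x → Ok m s →
      (Tru m (φ.subst x y) s ↔ Tru m φ (cp s x y)) := by
  intro φ
  induction φ with
  | bot => intro s _ _ _; rfl
  | eq u w => intro s _ _ _; rfl
  | zero u => intro s _ _ _; rfl
  | succ u w => intro s _ _ _; rfl
  | add u w z => intro s _ _ _; rfl
  | mul u w z => intro s _ _ _; rfl
  | op i a b c d => intro s _ _ _; rfl
  | imp φ ψ ih ih' =>
    intro s hv h hs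
    change (_ → _) ↔ (_ → _)
    rw [ih hv.1 h.1 hs, ih' hv.2 h.2 hs]
  | all u φ ih =>
    intro s hv h hs
    by_cases hu : u = x
    · subst hu
      have e1 : (Fm.all u φ).subst u y = Fm.all u φ := by simp only [Fm.subst, if_true]
      rw [e1]
      refine tru_on (G := fun i => (Fm.all u φ).Free i) hv (fun _ h => h) hs (cp_ok hs u hy) ?_
      exact cp_on m s u y fun h => h.1 rfl
    · rcases h with h | h | h
      · exact absurd h hu
      · have e1 : (Fm.all u φ).subst x y = Fm.all u φ := by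
          simp only [Fm.subst, if_neg hu, Pool.Agent.TH197.J1545.subst_id h]
        rw [e1]
        refine tru_on (G := fun i => (Fm.all u φ).Free i) hv (fun _ h => h) hs (cp_ok hs x hy) ?_
        exact cp_on m s x y fun h' => h h'.2
      · obtain ⟨huy, hf⟩ := h
        have e1 : (Fm.all u φ).subst x y = Fm.all u (φ.subst x y) := by
          simp only [Fm.subst, if_neg hu]
        rw [e1]
        have hux : x ≠ u := fun e => hu e.symm
        constructor
        · intro h1 t' ht' ha
          -- the agreement of `s` and `t'` off `u` and `x`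
          have hon : On m (fun i => i ≠ x) s (cp s x y) :=
            ⟨fun _ _ h => (cp_v_ne s y h).symm,
             fun _ _ _ _ hi hj => (cp_c_ne s y hi hj).symm⟩
          obtain ⟨t, h2, h3, h4⟩ := hon.lift hs hv.1 ht' ha
          have h5 := (ih hv.2 hf h2).1 (h1 t h2 h3)
          refine (tru_on (G := fun _ => True) hv.2 (fun _ _ => trivial) (cp_ok h2 x hy) ht' ?_).1 h5
          have gy : y ≠ x ∨ y = u := Or.inl (Ne.symm hxy)
          have vx : t.v y = t'.v x := by
            rw [← h3.1 y hy (Ne.symm huy), ← cp_v_same s x y]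
            exact ha.1 x hx hux
          have cx0 : t'.c x y = 0 := by
            rw [← ha.2 x hx y hy hux (Ne.symm huy), cp_c_x s y (Ne.symm hxy)]
            exact hs.refl y hy
          have vy : t'.v y = t'.v x := by
            rw [← vx]
            exact (h4.1 y hy gy).symm
          have cx : ∀ j < m, t'.c y j = t'.c x j := by
            intro j hj
            by_cases hl : (t'.v x).isLeft
            · rw [ht'.norm x hx j hj (Or.inl hl), ht'.norm y hy j hj (Or.inl (vy ▸ hl))]
            · have hr := right_of_not_left hl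
              exact (ht'.cong x hx y hy j hj hr (vy ▸ hr) cx0).symm
          refine ⟨?_, ?_⟩
          · intro i hi _
            by_cases hix : i = x
            · subst hix
              rw [cp_v_same]
              exact vx
            · rw [cp_v_ne t y hix]
              exact h4.1 i hi (Or.inl hix)
          · have cj : ∀ j < m, (cp t x y).c x j = t'.c x j := by
              intro j hj
              by_cases hjx : j = x
              · subst hjx
                rw [(cp_ok h2 j hy).refl j hj, ht'.refl j hj]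
              · rw [cp_c_x t y hjx, h4.2 y hy j hj gy (Or.inl hjx)]
                exact cx j hj
            intro i hi j hj _ _
            by_cases hix : i = x
            · rw [hix]
              exact cj j hj
            · by_cases hjx : j = x
              · rw [hjx, (cp_ok h2 x hy).symm i hi x hx, ht'.symm i hi x hx]
                exact cj i hi
              · rw [cp_c_ne t y hix hjx]
                exact h4.2 i hi j hj (Or.inl hix) (Or.inl hjx)
        · intro h1 t ht ha
          refine (ih hv.2 hf ht).2 (h1 (cp t x y) (cp_ok ht x hy) ⟨?_, ?_⟩)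
          · intro i hi hiu
            change s.v _ = t.v _
            refine ha.1 _ ?_ ?_
            · unfold Pool.Agent.TH672.Form.ren
              split_ifs <;> omega
            · unfold Pool.Agent.TH672.Form.ren
              split_ifs
              · exact Ne.symm huy
              · exact hiu
          · intro i hi j hj hiu hju
            change s.c _ _ = t.c _ _
            refine ha.2 _ ?_ _ ?_ ?_ ?_
            · unfold Pool.Agent.TH672.Form.ren
              split_ifs <;> omega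
            · unfold Pool.Agent.TH672.Form.ren
              split_ifs <;> omega
            · unfold Pool.Agent.TH672.Form.ren
              split_ifs
              · exact Ne.symm huy
              · exact hiu
            · unfold Pool.Agent.TH672.Form.ren
              split_ifs
              · exact Ne.symm huy
              · exact hju

/-- `y` occurs in the result of the substitution if `x` is free -/
lemma vlt_subst {m x y : ℕ} : ∀ {φ : Fml}, φ.Free x → Vlt m (φ.subst x y) → y < m := by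
  intro φ
  induction φ with
  | bot => intro h; exact h.elim
  | eq u v =>
    rintro (rfl | rfl) h
    · have := h.1
      rwa [ren_same] at this
    · have := h.2
      rwa [ren_same] at this
  | zero u =>
    rintro rfl h
    have : Pool.Agent.TH672.Form.ren x y x < m := h
    rwa [ren_same] at this
  | succ u v =>
    rintro (rfl | rfl) h
    · have := h.1
      rwa [ren_same] at this
    · have := h.2
      rwa [ren_same] at this
  | add u v w =>
    rintro (rfl | rfl | rfl) h
    · have := h.1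
      rwa [ren_same] at this
    · have := h.2.1
      rwa [ren_same] at this
    · have := h.2.2
      rwa [ren_same] at this
  | mul u v w =>
    rintro (rfl | rfl | rfl) h
    · have := h.1
      rwa [ren_same] at this
    · have := h.2.1
      rwa [ren_same] at this
    · have := h.2.2
      rwa [ren_same] at this
  | op i a b c d =>
    rintro (rfl | rfl | rfl | rfl) h
    · have := h.1
      rwa [ren_same] at this
    · have := h.2.1
      rwa [ren_same] at this
    · have := h.2.2.1
      rwa [ren_same] at this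
    · have := h.2.2.2
      rwa [ren_same] at this
  | imp φ ψ ih ih' =>
    rintro (h | h) hv
    · exact ih h hv.1
    · exact ih' h hv.2
  | all u φ ih =>
    rintro ⟨hu, h⟩ hv
    simp only [Fm.subst, if_neg (Ne.symm hu)] at hv
    exact ih h hv.2

/-! ### Equality -/

lemma sw_v {s : St} {x y u u' : ℕ} (h : Eqs s x y) (hw : Sw x y u u') :
    s.v u' = s.v u := by
  rcases hw with rfl | ⟨rfl, rfl⟩
  · rfl
  · exact h.1.symm

lemma eqs_c {m : ℕ} {s : St} (hs : Ok m s) {x y : ℕ} (hx : x < m) (hy : y < m) (h : Eqs s x y)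
    {k : ℕ} (hk : k < m) : s.c y k = s.c x k := by
  by_cases hl : (s.v x).isLeft
  · rw [hs.norm x hx k hk (Or.inl hl), hs.norm y hy k hk (Or.inl (h.1 ▸ hl))]
  · have hr := right_of_not_left hl
    exact (hs.cong x hx y hy k hk hr (h.1 ▸ hr) h.2).symm

lemma sw_c {m : ℕ} {s : St} (hs : Ok m s) {x y : ℕ} (hx : x < m) (hy : y < m) (h : Eqs s x y)
    {u u' w w' : ℕ} (hu : Sw x y u u') (hw : Sw x y w w') (um : u < m) (wm : w < m) :
    s.c u' w' = s.c u w := by
  have e1 : ∀ {k : ℕ}, k < m → ∀ {u u' : ℕ}, Sw x y u u' → s.c u' k = s.c u k := by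
    intro k hk u u' hu
    rcases hu with rfl | ⟨rfl, rfl⟩
    · rfl
    · exact eqs_c hs hx hy h hk
  have um' : u' < m := by
    rcases hu with rfl | ⟨rfl, rfl⟩
    · exact um
    · exact hy
  have wm' : w' < m := by
    rcases hw with rfl | ⟨rfl, rfl⟩
    · exact wm
    · exact hy
  rw [e1 wm' hu, hs.symm u um w' wm', e1 um hw, hs.symm w wm u um]

lemma sw_eqs {m : ℕ} {s : St} (hs : Ok m s) {x y : ℕ} (hx : x < m) (hy : y < m) (h : Eqs s x y)
    {u u' w w' : ℕ} (hu : Sw x y u u') (hw : Sw x y w w') (um : u < m) (wm : w < m) :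
    Eqs s u' w' ↔ Eqs s u w := by
  unfold Eqs
  rw [sw_v h hu, sw_v h hw, sw_c hs hx hy h hu hw um wm]

theorem tru_repl {m : ℕ} {s : St} (hs : Ok m s) {x y : ℕ} (hx : x < m) (hy : y < m)
    (h : Eqs s x y) {φ ψ : Fml} (hr : ReplK x y φ ψ) (hv : Vlt m φ) :
    Tru m φ s → Tru m ψ s := by
  cases hr with
  | eq h1 h2 =>
    intro h0
    exact (sw_eqs hs hx hy h h1 h2 hv.1 hv.2).2 h0
  | zero h1 =>
    intro h0
    rw [tru_zero] at h0 ⊢
    rw [sw_v h h1, h0]
  | succ h1 h2 =>
    intro h0
    rw [tru_succ] at h0 ⊢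
    unfold SuccS at h0 ⊢
    rw [sw_v h h1, sw_v h h2, sw_eqs hs hx hy h h1 h2 hv.1 hv.2]
    exact h0
  | add h1 h2 h3 =>
    intro h0
    rw [tru_add] at h0 ⊢
    unfold AddS at h0 ⊢
    rw [sw_v h h1, sw_v h h2, sw_v h h3,
      sw_eqs hs hx hy h h1 h3 hv.1 hv.2.2, sw_eqs hs hx hy h h2 h3 hv.2.1 hv.2.2]
    exact h0
  | mul h1 h2 h3 =>
    intro h0
    rw [tru_mul] at h0 ⊢
    unfold MulS at h0 ⊢
    rw [sw_v h h1, sw_v h h2, sw_v h h3,
      sw_eqs hs hx hy h h1 h3 hv.1 hv.2.2, sw_eqs hs hx hy h h2 h3 hv.2.1 hv.2.2]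
    exact h0
  | op h1 h2 h3 h4 =>
    intro h0
    rw [tru_op] at h0 ⊢
    unfold OpP at h0 ⊢
    rw [sw_v h h1, sw_v h h2, sw_v h h3,
      sw_c hs hx hy h h1 h2 hv.1 hv.2.1]
    exact h0

/-! ### Soundness -/

lemma agr_refl (m x : ℕ) (s : St) : Agr m x s s := ⟨fun _ _ _ => rfl, fun _ _ _ _ _ _ => rfl⟩

theorem tru_log {m : ℕ} {φ : Fml} (h : LogK φ) (hv : Vlt m φ) {s : St} (hs : Ok m s) :
    Tru m φ s := by
  cases h with
  | k φ ψ => intro h _; exact h
  | s φ ψ χ => intro h h' h''; exact h h'' (h' h'')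
  | dn φ => intro h; by_contra h'; exact h h'
  | inst x y φ hf =>
    intro h
    obtain ⟨⟨hx, hv1⟩, hv2⟩ := hv
    by_cases hfr : φ.Free x
    · have hy := vlt_subst hfr hv2
      by_cases hxy : x = y
      · subst hxy
        rw [subst_self]
        exact h s hs (agr_refl m x s)
      · exact (tru_subst hx hy hxy hv1 hf hs).2 (h (cp s x y) (cp_ok hs x hy) (cp_agr m s x y))
    · rw [Pool.Agent.TH197.J1545.subst_id hfr]
      exact h s hs (agr_refl m x s)
  | dist x φ ψ hf =>
    intro h h' t ht ha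
    obtain ⟨⟨hx, hv1, hv2⟩, -⟩ := hv
    refine h t ht ha ((tru_on (G := fun i => i ≠ x) hv1 ?_ hs ht ⟨ha.1, ?_⟩).1 h')
    · rintro i hi rfl
      exact hf hi
    · intro i hi j hj gi gj
      exact ha.2 i hi j hj gi gj
  | refl x => exact ⟨rfl, hs.refl x hv.1⟩
  | repl x y φ ψ hr =>
    intro e h
    exact tru_repl hs hv.1.1 hv.1.2 e hr hv.2.1 h

/-- Soundness of the calculus. -/
theorem sound : SoundT := by
  intro m Γ π
  induction π with
  | nil => intro _ _ _ φ h; simp at h
  | cons ψ π ih =>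
    intro h hv hΓ φ hφ
    obtain ⟨h1, h2⟩ := h
    have ih' := ih h1 (fun χ hχ => hv χ (List.mem_cons_of_mem _ hχ)) hΓ
    rcases List.mem_cons.mp hφ with rfl | hφ
    · have hvφ := hv φ (List.mem_cons_self ..)
      rcases h2 with h2 | h2 | ⟨χ, h3, h4⟩ | ⟨χ, h3, x, rfl⟩
      · exact hΓ _ h2 hvφ
      · exact fun s hs => tru_log h2 hvφ hs
      · exact fun s hs => ih' _ h4 s hs (ih' _ h3 s hs)
      · exact fun s _ t ht _ => ih' _ h3 t ht
    · exact ih' φ hφ

end Pool.Agent.J6H81.BC
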