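import Pool.Agent.J6H49.BC.Stm4

/-! # MODULE T: translation of proofs into the finite language -/

set_option autoImplicit false

namespace Pool.Agent.J6H81.BC

open Pool.Agent.TH672 (Fm Str digits LogK ReplK Sw)
open Pool.Agent.TH636.BC (Fml IsProof Step Proves code inst blk con conAt Numerates Arith robinson
  TE Cf col lt appn Cx)
open Pool.Agent.J6H49.BC

theorem inL_trL : ∀ φ : Fml, InL (trL φ)
  | .bot => trivial
  | .eq _ _ => trivial
  | .zero _ => trivial
  | .succ _ _ => trivial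
  | .add _ _ _ => trivial
  | .mul _ _ _ => trivial
  | .op i a b c d => by
      unfold trL
      split_ifs with h
      · exact h
      · exact trivial
  | .imp φ ψ => ⟨inL_trL φ, inL_trL ψ⟩
  | .all _ φ => inL_trL φ

theorem trL_eq : ∀ φ : Fml, InL φ → trL φ = φ
  | .bot, _ => rfl
  | .eq _ _, _ => rfl
  | .zero _, _ => rfl
  | .succ _ _, _ => rfl
  | .add _ _ _, _ => rfl
  | .mul _ _ _, _ => rfl
  | .op i a b c d, h => by
      unfold trL
      exact if_pos h
  | .imp φ ψ, h => by
      unfold trL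
      rw [trL_eq φ h.1, trL_eq ψ h.2]
  | .all _ φ, h => by
      unfold trL
      rw [trL_eq φ h]

theorem sz_trL : ∀ φ : Fml, sz (trL φ) ≤ sz φ
  | .bot => le_rfl
  | .eq _ _ => le_rfl
  | .zero _ => le_rfl
  | .succ _ _ => le_rfl
  | .add _ _ _ => le_rfl
  | .mul _ _ _ => le_rfl
  | .op i a b c d => by
      unfold trL
      split_ifs with h
      · exact le_rfl
      · simp only [sz_eq, sz_op]; omega
  | .imp φ ψ => by
      have h1 := sz_trL φ
      have h2 := sz_trL ψ
      unfold trL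
      simp only [sz_imp]; omega
  | .all _ φ => by
      have h1 := sz_trL φ
      unfold trL
      simp only [sz_all]; omega

theorem cx_trL {s : Bool} {k : ℕ} {φ : Fml} (h : Cx s k φ) : Cx s k (trL φ) := by
  induction h with
  | bot s k => exact .bot s k
  | eq s k x y => exact .eq s k x y
  | zero s k x => exact .zero s k x
  | succ s k x y => exact .succ s k x y
  | add s k x y z => exact .add s k x y z
  | mul s k x y z => exact .mul s k x y z
  | op s k i a b c d =>
    unfold trL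
    split_ifs with h
    · exact .op s k i a b c d
    · exact .eq s k a b
  | imp _ _ h1 h2 => exact .imp h1 h2
  | all _ h1 => exact .all h1
  | lift _ h1 => exact .lift h1

theorem free_trL (x : ℕ) : ∀ φ : Fml, (trL φ).Free x → φ.Free x
  | .bot, h => h
  | .eq _ _, h => h
  | .zero _, h => h
  | .succ _ _, h => h
  | .add _ _ _, h => h
  | .mul _ _ _, h => h
  | .op i a b c d, h => by
      unfold trL at h
      split_ifs at h
      · exact h
      · rcases h with h | h
        · exact Or.inl h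
        · exact Or.inr (Or.inl h)
  | .imp φ ψ, h => h.elim (fun h => Or.inl (free_trL x φ h)) (fun h => Or.inr (free_trL x ψ h))
  | .all _ φ, h => ⟨h.1, free_trL x φ h.2⟩

theorem subst_trL (x y : ℕ) : ∀ φ : Fml, trL (φ.subst x y) = (trL φ).subst x y
  | .bot => rfl
  | .eq _ _ => rfl
  | .zero _ => rfl
  | .succ _ _ => rfl
  | .add _ _ _ => rfl
  | .mul _ _ _ => rfl
  | .op i a b c d => by
      by_cases h : i < 6
      · simp only [trL, Fm.subst, h, if_true]
      · simp only [trL, Fm.subst, h, if_false]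
  | .imp φ ψ => by
      simp only [trL, Fm.subst, subst_trL x y φ, subst_trL x y ψ]
  | .all u φ => by
      by_cases h : u = x
      · simp only [trL, Fm.subst, h, if_true]
      · simp only [trL, Fm.subst, h, if_false, subst_trL x y φ]

theorem freeFor_trL (x y : ℕ) : ∀ φ : Fml, φ.FreeFor y x → (trL φ).FreeFor y x
  | .bot, _ => trivial
  | .eq _ _, _ => trivial
  | .zero _, _ => trivial
  | .succ _ _, _ => trivial
  | .add _ _ _, _ => trivial
  | .mul _ _ _, _ => trivial
  | .op i a b c d, _ => by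
      unfold trL
      split_ifs <;> exact trivial
  | .imp φ ψ, h => ⟨freeFor_trL x y φ h.1, freeFor_trL x y ψ h.2⟩
  | .all u φ, h => by
      rcases h with h | h | h
      · exact Or.inl h
      · exact Or.inr (Or.inl fun h' => h (free_trL x φ h'))
      · exact Or.inr (Or.inr ⟨h.1, freeFor_trL x y φ h.2⟩)

theorem repl_trL {x y : ℕ} {φ ψ : Fml} (h : ReplK x y φ ψ) : ReplK x y (trL φ) (trL ψ) := by
  cases h with
  | eq h1 h2 => exact .eq h1 h2
  | zero h1 => exact .zero h1
  | succ h1 h2 => exact .succ h1 h2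
  | add h1 h2 h3 => exact .add h1 h2 h3
  | mul h1 h2 h3 => exact .mul h1 h2 h3
  | op h1 h2 h3 h4 =>
    unfold trL
    split_ifs
    · exact .op h1 h2 h3 h4
    · exact .eq h1 h2

theorem logK_trL {φ : Fml} (h : LogK φ) : LogK (trL φ) := by
  cases h with
  | k φ ψ => exact .k _ _
  | s φ ψ χ => exact .s _ _ _
  | dn φ => exact .dn _
  | inst x y φ h =>
    have h1 : LogK ((Fm.all x (trL φ)).imp ((trL φ).subst x y)) := .inst x y _ (freeFor_trL x y φ h)
    rw [← subst_trL] at h1
    exact h1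
  | dist x φ ψ h => exact .dist x _ _ fun h' => h (free_trL x φ h')
  | refl x => exact .refl x
  | repl x y φ ψ h => exact .repl x y _ _ (repl_trL h)

theorem isProof_trL {Γ : List Fml} (hΓ : ∀ φ ∈ Γ, InL φ) :
    ∀ π : List Fml, IsProof Γ π → IsProof Γ (π.map trL)
  | [], _ => trivial
  | φ :: π, h => by
      refine ⟨isProof_trL hΓ π h.1, ?_⟩
      rcases h.2 with h1 | h1 | ⟨ψ, h1, h2⟩ | ⟨ψ, h1, x, rfl⟩
      · left
        rw [trL_eq φ (hΓ φ h1)]
        exact h1
      · exact Or.inr (Or.inl (logK_trL h1))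
      · exact Or.inr (Or.inr (Or.inl ⟨trL ψ, List.mem_map_of_mem h1,
          List.mem_map.mpr ⟨_, h2, rfl⟩⟩))
      · exact Or.inr (Or.inr (Or.inr ⟨trL ψ, List.mem_map_of_mem h1, x, rfl⟩))

/-! ### the language of the theory -/

theorem inL_arith : ∀ φ : Fml, Arith φ → InL φ
  | .bot, _ => trivial
  | .eq _ _, _ => trivial
  | .zero _, _ => trivial
  | .succ _ _, _ => trivial
  | .add _ _ _, _ => trivial
  | .mul _ _ _, _ => trivial
  | .op _ _ _ _ _, h => h.elim
  | .imp φ ψ, h => ⟨inL_arith φ h.1, inL_arith ψ h.2⟩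
  | .all _ φ, h => inL_arith φ h

theorem inL_blk {φ : Fml} (h : InL φ) : ∀ n : ℕ, InL (blk^[n] φ)
  | 0 => h
  | n + 1 => by
      rw [Function.iterate_succ_apply']
      exact ⟨trivial, ⟨trivial, inL_blk h n⟩⟩

theorem inL_inst {x n : ℕ} {φ : Fml} (h : InL φ) : InL (inst x n φ) :=
  ⟨trivial, inL_blk (φ := .all x (.imp (.eq x 0) φ)) ⟨trivial, h⟩ n⟩

theorem inL_foldr {x : ℕ} {φ : Fml} (h : InL φ) : ∀ w : List Bool, InL (w.foldr (digitD x) φ)
  | [] => h
  | true :: w => ⟨trivial, ⟨trivial, ⟨trivial, inL_foldr h w⟩⟩⟩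
  | false :: w => ⟨trivial, ⟨trivial, inL_foldr h w⟩⟩

theorem inL_instD {x n : ℕ} {φ : Fml} (h : InL φ) : InL (instD x n φ) :=
  ⟨trivial, inL_foldr h _⟩

theorem inL_appn {σ : List Bool} {ψ : Fml} (h : InL ψ) : InL (appn σ ψ) :=
  inL_inst (inL_inst ⟨trivial, ⟨trivial, h⟩⟩)

theorem inL_robinson : ∀ φ ∈ robinson, InL φ := by
  intro φ h
  simp only [robinson, List.mem_cons, List.not_mem_nil, or_false] at h
  rcases h with h | h | h | h | h | h | h | h | h | h | h | h | h | h | h <;> subst h <;>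
    simp [InL, Fm.ex, Fm.neg, Fm.or]

theorem inL_U0 : ∀ φ ∈ U0, InL φ := by
  intro φ h
  simp only [U0, List.mem_cons, List.not_mem_nil, or_false] at h
  rcases h with h | h | h | h | h | h <;> subst h <;>
    simp [InL, Fm.ex, Fm.neg, Fm.or, Fm.and, hi, col, lt]

theorem inL_TE : ∀ φ ∈ TE, InL φ := by
  intro φ h
  simp only [TE, List.mem_cons, List.not_mem_nil, or_false] at h
  have e4 : ∀ a b c d : ℕ, InL (.op 4 a b c d) := fun a b c d => show 4 < 6 by norm_num
  have e5 : ∀ a b c d : ℕ, InL (.op 5 a b c d) := fun a b c d => show 5 < 6 by norm_num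
  rcases h with h | h | h | h | h <;> subst h
  · exact ⟨trivial, inL_inst (e4 _ _ _ _)⟩
  · exact ⟨e4 _ _ _ _, ⟨trivial, inL_appn (e4 _ _ _ _)⟩⟩
  · exact ⟨e4 _ _ _ _, ⟨trivial, inL_appn (e5 _ _ _ _)⟩⟩
  · exact ⟨e5 _ _ _ _, trivial, trivial, trivial, trivial, e5 _ _ _ _⟩
  · exact ⟨e5 _ _ _ _, trivial, trivial, trivial, trivial, trivial, trivial, e5 _ _ _ _⟩

theorem inL_WB : ∀ φ ∈ WB, InL φ := by
  intro φ h
  rw [WB, List.mem_append, List.mem_append] at h
  rcases h with (h | h) | h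
  · exact inL_robinson φ h
  · exact inL_U0 φ h
  · exact inL_TE φ h

theorem inL_XX : InL XX := by
  simp [XX, InL, Fm.neg, col, lt]

theorem inL_RA {P : Fml} (hP : Numerates P) : ∀ φ ∈ RA P, InL φ := by
  intro φ h
  rw [RA, List.mem_cons] at h
  rcases h with h | h
  · subst h
    refine inL_inst (φ := rf P) ?_
    refine ⟨show 5 < 6 by norm_num, inL_XX, inL_inst ⟨inL_arith P hP.arith, trivial⟩⟩
  · exact inL_WB φ h

theorem trT : TrT :=
  ⟨fun _ π hΓ h => isProof_trL hΓ π h, inL_trL, trL_eq, sz_trL, fun _ _ _ h => cx_trL h,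
    fun _ hP => ⟨inL_RA hP,
      fun _ => inL_inst (inL_inst (inL_inst ⟨inL_arith _ hP.arith, trivial⟩)),
      fun _ => inL_instD (inL_instD (inL_instD ⟨inL_arith _ hP.arith, trivial⟩))⟩⟩

end Pool.Agent.J6H81.BC
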